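import Pool.Agent.H44.PC.Form

/-!
# Parity for base changes of newforms with an inner twist

`h` is a normalised Hecke eigenform of even weight `k` and level `N`, `F` a subfield of `ℚ(ζ_N)`, such that the
nebentypus `ε` of `h` is a character of `Gal(F/ℚ)`, and `ω` a character of order two of `Gal(F/ℚ)`. For every character `χ`
of `Gal(F/ℚ)` with `χ² ε = 1` (that is, `h ⊗ χ` has trivial nebentypus) it is assumed that there are, for some level `M` and
some `w`, forms `h₁ = h ⊗ χ` and `h₂ = h ⊗ χω` of level `M` (with coefficients `χ(n) a_n(h)` and `χω(n) a_n(h)` at the `n`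
prime to `N`), eigenforms of the Fricke involution with the same eigenvalue `w`, and with Euler factors at the primes
dividing `N`. This is the case if `h` is a newform for `Γ_0(N)` with `h ⊗ ω = h^γ` for an automorphism `γ` of the coefficient
field (`h₂ = h₁^γ`), and always if `ε` is not the square of a character of `Gal(F/ℚ)` (there is no `χ`). Let `g` be the base
change of `h` to `F`.

* The `L`-function of `g` (without the Euler factors at the primes dividing `N`) is entire and has even order of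
  vanishing at the centre `s = 0`.
* Let `ρ : G_F → GL_2(K)` be the `p`-adic representation attached to `g` and `r : G_ℚ → GL_2(L)`, `K ⊂ L`, the one attached
  to `h`. If for some prime `ℓ ∤ N p` of residue degree `2^j` in `F` no product of a `2^j`-th root of unity of `L` and the
  image in `L` of the coefficient `a_ℓ` of `h` is in `K`, then the Bloch–Kato Selmer group `H^1_f(F, ρ)` has even
  dimension over `K`.
-/

set_option autoImplicit false

open NumberField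

namespace Pool.Agent.Results.MP_d4aa36_nt.EvenParity

open Pool.Agent.H44.PC

theorem result (N : ℕ) [NeZero N] (ζ : AlgebraicClosure ℚ) (hζ : IsPrimitiveRoot ζ N)
    (F : IntermediateField ℚ (AlgebraicClosure ℚ)) [NumberField F] (hF : F ≤ IntermediateField.adjoin ℚ {ζ})
    (ω : DirichletCharacter ℂ N) (hω : CharOf ζ F ω) (hω1 : ω ≠ 1) (hω2 : ω * ω = 1)
    (k : ℕ) (hk : Even k) (hk0 : 0 < k) (ε : DirichletCharacter ℂ N) (hε : CharOf ζ F ε)
    (h : CuspForm ((CongruenceSubgroup.Gamma1 N).map (Matrix.SpecialLinearGroup.mapGL ℝ)) (k : ℤ))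
    (hh : HeckeForm ε h)
    (htw : ∀ χ : DirichletCharacter ℂ N, CharOf ζ F χ → χ * χ * ε = 1 → ∃ M : ℕ, M ≠ 0 ∧ ∃ (w : ℂ)
      (h₁ h₂ : CuspForm ((CongruenceSubgroup.Gamma1 M).map (Matrix.SpecialLinearGroup.mapGL ℝ)) (k : ℤ)),
        (∀ n : ℕ, n.Coprime N → coef h₁ n = χ (n : ZMod N) * coef h n) ∧
        (∀ n : ℕ, n.Coprime N → coef h₂ n = (χ * ω) (n : ZMod N) * coef h n) ∧ Newf N w h₁ ∧ Newf N w h₂) :
    (∃ Λ : ℂ → ℂ, Differentiable ℂ Λ ∧
      (∀ s : ℂ, 1 < s.re → HasProd (fun v : GoodPrime F N =>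
        (1 - tBC k ε (coef h) (Ideal.absNorm v.1) * (Ideal.absNorm v.1 : ℂ) ^ (-1 - s) +
          (Ideal.absNorm v.1 : ℂ) ^ (-1 - 2 * s))⁻¹) (Λ s)) ∧
      ∃ m : ℕ, analyticOrderAt Λ 0 = ((2 * m : ℕ) : ℕ∞)) ∧
    ∀ (p : ℕ) [Fact p.Prime] (K L : Type) [NontriviallyNormedField K] [NormedAlgebra ℚ_[p] K]
      [NontriviallyNormedField L] [NormedAlgebra K L] (E : Subfield ℂ) (ι : E →+* L)
      (ρ : F.fixingSubgroup →* Matrix (Fin 2) (Fin 2) K)
      (r : ((AlgebraicClosure ℚ) ≃ₐ[ℚ] (AlgebraicClosure ℚ)) →* Matrix (Fin 2) (Fin 2) L),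
      AttF ι p k ε (coef h) ρ → AttQ ι p k ε (coef h) r →
      (∃ ℓ j : ℕ, ℓ.Prime ∧ ¬ ℓ ∣ N * p ∧
        (∃ v : Ideal (𝓞 F), v.IsPrime ∧ (ℓ : 𝓞 F) ∈ v ∧ Ideal.absNorm v = ℓ ^ 2 ^ j) ∧
        ∃ A : E, (A : ℂ) = coef h ℓ ∧ ∀ z : L, z ^ 2 ^ j = 1 → z * ι A ∉ Set.range (algebraMap K L)) →
      Even (selDim ρ (AlgebraicClosure ℚ) p) := by
  have := isGalois_of_le (F := F) hζ hF
  obtain ⟨D, hD, hsum⟩ := exists_D hk0 h
  have he := hh.eig hk0
  have hε' : ε ∈ charGrp hζ F := (mem_charGrp hζ F ε).2 hε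
  refine ⟨analytic_gen hζ hF hk hk0 he D hD hsum hε' ?_, ?_⟩
  · intro _
    refine even_order_pair hk0 hk he hD hsum (charGrp hζ F) hε' ((mem_charGrp hζ F ω).2 hω) hω1 hω2 ?_
    intro χ hχ hχ2
    obtain ⟨M, hM, w, h₁, h₂, a1, a2, n1, n2⟩ := htw χ ((mem_charGrp hζ F χ).1 hχ) hχ2
    have hM' : NeZero M := ⟨hM⟩
    exact ⟨M, hM', w, h₁, h₂, a1, a2, n1.raw hk, n2.raw hk⟩
  rintro p _ K L _ _ _ _ E ι ρ r hρ hr ⟨ℓ, j, hℓ, hℓM, ⟨v, hv, hlv, hnorm⟩, A, hA, hAK⟩
  refine selmer_even_ext hζ hF hk hk0 hε' hρ hr hℓ hℓM v hv hlv j hnorm fun A' hA' => ?_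
  rwa [Subtype.ext (hA'.trans hA.symm)]

end Pool.Agent.Results.MP_d4aa36_nt.EvenParity
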