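import Pool.Agent.H18.SQ.Main
import Pool.Agent.H44.TW.Par

/-!
# Parity for Hilbert newforms whose representation does not extend to its stabiliser: the sign

`F` is a totally real number field (a subfield of the algebraic closure of `ℚ`). The numbers `C(m)`, `m` an ideal of `F`,
are the coefficients of a Hilbert newform `g` over `F` of even weights `k_σ`, level `n` and trivial character, normalised as
for weight two, with Fricke eigenvalue `w`. `bad` is a nonzero ideal. The `L`-function of `g`, without the Euler factors at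
the primes dividing `bad`, is entire; `m` is its order of vanishing at the centre `s = 0`.

Let `ρ : G_F → GL_2(K)` be the absolutely irreducible `p`-adic representation attached to `g` by an embedding `ι` of the
coefficients. Let `𝒢` be a group of pairs `(t, γ)`, `t` an automorphism of the algebraic closure of `ℚ` which induces an
automorphism `τ` of `F`, and `γ` a continuous automorphism of `K` over `ℚ_p`, such that `γ(ι(C(v))) = ι(C(τ v))` for all
good primes `v`. Suppose that `4` divides the sum of the `k_σ`, or that `k_(σ τ) = k_σ` modulo `4` for all these `τ`. Let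
`S` be a finite set of primes of `F`, stable under the `τ`, with `w = (-1)^|S|`, such that at every `v` in `S` the
functionals on `K²` fixed by a decomposition group form a line: `S` is empty if `w = 1`, and it is the set of the primes
`v` dividing `n` with `C(v) = 1` if `n` is squarefree.

If `ρ` does not extend to a semilinear representation of `𝒢` on `K²`, then both `m` and the dimension over `K` of the
Bloch–Kato Selmer group `H^1_f(F, ρ)` are even.
-/

set_option autoImplicit false

open NumberField

namespace Pool.Agent.Results.MP_d4aa36_nt.RootNumber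

open Pool.Agent.H44.PC Pool.Agent.H44.TW Pool.Agent.H18.SQ

theorem result (F : IntermediateField ℚ (AlgebraicClosure ℚ)) [NumberField F] [IsTotallyReal F]
    (k : (F →+* ℝ) → ℕ) (hk : ∀ σ, Even (k σ) ∧ 0 < k σ) (n bad : Ideal (𝓞 F)) (hn : n ≠ ⊥) (hbad : bad ≠ ⊥) (w : ℂ)
    (C : Ideal (𝓞 F) → ℂ) (hC : HNew k n w bad C) :
    ∃ m : ℕ, EulerOrd bad C m ∧
    ∀ (p : ℕ) [Fact p.Prime] (K : Type) [NontriviallyNormedField K] [NormedAlgebra ℚ_[p] K] (E : Subfield ℂ)
      (ι : E →+* K) (ρ : F.fixingSubgroup →* Matrix (Fin 2) (Fin 2) K),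
      Submodule.span K (Set.range ρ) = ⊤ → Att (K := K) ι p (fun v => ¬ bad ≤ v) C ρ →
      ∀ S : Finset (Ideal (𝓞 F)), w = (-1) ^ S.card → (∀ v ∈ S, Line ρ v) →
      ∀ 𝒢 : Subgroup (Pr p K), (∀ x ∈ 𝒢, Fixes ι bad C x ∧ Keeps S x) →
        (4 ∣ ∑ σ : F →+* ℝ, k σ ∨ ∀ x ∈ 𝒢, KeepsW k x) → ¬ Extends ρ 𝒢 →
          Even m ∧ Even (selDim ρ (AlgebraicClosure ℚ) p) := by
  obtain ⟨Λ, h1, h2, m, h3, h4⟩ := exists_good hk hn hbad hC
  refine ⟨m, ⟨Λ, h1, h2, h3⟩, ?_⟩
  intro p _ K _ _ E ι ρ hirr hρ S hw hS 𝒢 h𝒢 hk4 hex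
  constructor
  · obtain ⟨U, hU, hU2⟩ := exists_U hk 𝒢 hk4
    have h5 : Even (S.card + U.card) := by
      by_contra hodd
      exact hex (extends_of_odd_places hbad hirr hρ 𝒢 (fun x hx => (h𝒢 x hx).1) U S hS (fun x hx => (h𝒢 x hx).2)
        hU2 (Nat.not_even_iff_odd.1 hodd))
    rw [hU, hw, ← pow_add, h5.neg_one_pow] at h4
    by_contra hodd
    rw [(Nat.not_even_iff_odd.1 hodd).neg_one_pow] at h4
    norm_num at h4
  · by_contra hodd
    exact hex (extends_of_odd hbad hirr hρ 𝒢 (fun x hx => (h𝒢 x hx).1) (Nat.not_even_iff_odd.1 hodd))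

end Pool.Agent.Results.MP_d4aa36_nt.RootNumber
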