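import Pool.Agent.H44.TW.XMain
import Pool.Agent.H44.TW.Par

/-!
# Parity for Hilbert newforms whose representation does not extend to its stabiliser

`F` is a totally real number field (a subfield of the algebraic closure of `ℚ`). The numbers `C(m)`, `m` an ideal of `F`,
are the coefficients of a Hilbert newform `g` over `F` of even weights `k_σ`, level `n` and trivial character, normalised as
for weight two, with Fricke eigenvalue `w`. `bad` is a nonzero ideal.

* The `L`-function of `g`, without the Euler factors at the primes dividing `bad`, is entire, and the parity of its order of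
  vanishing at the centre `s = 0` is given by the sign `w i^(∑ k_σ)` of the functional equation.
* Let `ρ : G_F → GL_2(K)` be the absolutely irreducible `p`-adic representation attached to `g` by an embedding `ι` of the
  coefficients. Let `𝒢` be any group of pairs `(t, γ)`, `t` an automorphism of the algebraic closure of `ℚ` which induces an
  automorphism `τ` of `F`, and `γ` a continuous automorphism of `K` over `ℚ_p`, such that `γ(ι(C(v))) = ι(C(τ v))` for all
  good primes `v`. If `ρ` does not extend to a semilinear representation of `𝒢` on `K²`, then the Bloch–Kato Selmer group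
  `H^1_f(F, ρ)` has even dimension over `K`.

So the parity statement holds for all newforms `g` of sign `+1` and all places such that `ρ` does not extend to a
semilinear representation of the group of all such pairs.
-/

set_option autoImplicit false

open NumberField

namespace Pool.Agent.Results.MP_d4aa36_nt.SemilinearExtension

open Pool.Agent.H44.PC Pool.Agent.H44.TW

theorem result (F : IntermediateField ℚ (AlgebraicClosure ℚ)) [NumberField F] [IsTotallyReal F]
    (k : (F →+* ℝ) → ℕ) (hk : ∀ σ, Even (k σ) ∧ 0 < k σ) (n bad : Ideal (𝓞 F)) (hn : n ≠ ⊥) (hbad : bad ≠ ⊥) (w : ℂ)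
    (C : Ideal (𝓞 F) → ℂ) (hC : HNew k n w bad C) :
    EulerSign k w bad C ∧
    ∀ (p : ℕ) [Fact p.Prime] (K : Type) [NontriviallyNormedField K] [NormedAlgebra ℚ_[p] K] (E : Subfield ℂ)
      (ι : E →+* K) (ρ : F.fixingSubgroup →* Matrix (Fin 2) (Fin 2) K),
      Submodule.span K (Set.range ρ) = ⊤ → Att (K := K) ι p (fun v => ¬ bad ≤ v) C ρ →
      ∀ 𝒢 : Subgroup (Pr p K), (∀ x ∈ 𝒢, Fixes ι bad C x) → ¬ Extends ρ 𝒢 →
        Even (selDim ρ (AlgebraicClosure ℚ) p) := by
  refine ⟨exists_good hk hn hbad hC, ?_⟩
  intro p _ K _ _ E ι ρ hirr hρ 𝒢 h𝒢 hex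
  by_contra hodd
  exact hex (extends_of_odd hbad hirr hρ 𝒢 h𝒢 (Nat.not_even_iff_odd.1 hodd))

end Pool.Agent.Results.MP_d4aa36_nt.SemilinearExtension
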