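import Pool.Agent.H44.TW.Stmt
import Pool.Agent.H44.TW.Final

/-!
# Parity for quadratic base changes of Hilbert newforms which are conjugate to a twist

`F₀` is a totally real number field (a subfield of the algebraic closure of `ℚ`), `F` a quadratic extension of `F₀` with
quadratic character `χ`. The numbers `C(m)`, `m` an ideal of `F₀`, are the coefficients of a Hilbert newform `g₀` over `F₀`
of even weights `k_σ`, level `n` and trivial character, normalised as for weight two; the numbers `C'(m)` are those of the
newform `g₀ ⊗ χ`, of level `n'`, and it is assumed that the two forms have the same Fricke eigenvalue `w`. This is the case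
if `g₀ ⊗ χ` is a conjugate of `g₀`, by an automorphism of `F₀`, or of the coefficient field, or both. `bad` is a nonzero
ideal; the primes not dividing it are unramified in `F`. Let `g` be the base change of `g₀` to `F`, with eigenvalues `t_w`:
`C(v)` if `w` is a prime of the same norm as the prime `v` of `F₀` below it, `C(v)² - 2 N(v)` otherwise.

* The `L`-function of `g`, without the Euler factors at the primes dividing `bad`, is entire and has even order of
  vanishing at the centre `s = 0`.
* Let `ρ : G_F → GL_2(K)` be the absolutely irreducible `p`-adic representation attached to `g`, and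
  `r : G_{F₀} → GL_2(L)`, `K ⊂ L`, the one attached to `g₀`, by one embedding `ι` of the coefficients. The Bloch–Kato Selmer
  group `H^1_f(F, ρ)` has even dimension over `K` in two cases: some `ι(C(v))` is not in `K`; or there are an automorphism
  `τ` of `F₀` which extends to an automorphism `t` with `t F ⊂ F`, and a continuous automorphism `γ` of `L` (the identity is
  allowed) which restricts to an automorphism of `K`, such that `γ(ι(C(v))) = χ(v) ι(C(τ v))` for all good primes `v`.
-/

set_option autoImplicit false

open NumberField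

namespace Pool.Agent.Results.MP_d4aa36_nt.TwistedBaseChange

open Pool.Agent.H44.PC Pool.Agent.H44.TW

theorem result (F₀ F : IntermediateField ℚ (AlgebraicClosure ℚ)) [NumberField F₀] [NumberField F]
    [IsTotallyReal F₀] (h : F₀ ≤ F) (h2 : F₀.relfinrank F = 2)
    (k : (F₀ →+* ℝ) → ℕ) (hk : ∀ σ, Even (k σ) ∧ 0 < k σ) (n n' bad : Ideal (𝓞 F₀)) (hn : n ≠ ⊥) (hn' : n' ≠ ⊥)
    (hbad : bad ≠ ⊥) (hunr : ∀ v : Good bad, Unr h v.1) (w : ℂ)
    (C C' : Ideal (𝓞 F₀) → ℂ) (hC : HNew k n w bad C) (hC' : HNew k n' w bad C')
    (htw : ∀ v : Good bad, C' v.1 = (chi (incl h) v.1 : ℂ) * C v.1) :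
    EulerEven (incl h) bad (tBC (incl h) C) ∧
    ∀ (p : ℕ) [Fact p.Prime] (K L : Type) [NontriviallyNormedField K] [NormedAlgebra ℚ_[p] K]
      [NontriviallyNormedField L] [NormedAlgebra K L] (E : Subfield ℂ) (ι : E →+* L)
      (ρ : F.fixingSubgroup →* Matrix (Fin 2) (Fin 2) K) (r : F₀.fixingSubgroup →* Matrix (Fin 2) (Fin 2) L),
      Submodule.span K (Set.range ρ) = ⊤ →
      Att ι p (fun w => ¬ bad ≤ w.comap (incl h)) (tBC (incl h) C) ρ →
      Att (K := L) ι p (fun v => ¬ bad ≤ v) C r →
      Larger K ι p bad C ∨ TwistSymm K ι p h bad C → Even (selDim ρ (AlgebraicClosure ℚ) p) := by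
  have hunr' : ∀ v : Ideal (𝓞 F₀), v.IsPrime → v ≠ ⊥ → ¬ bad ≤ v → Unr h v := fun v h1 h2 h3 => hunr ⟨v, h1, h2, h3⟩
  refine ⟨l_side h h2 hk hn hn' hbad hunr' hC hC' htw, ?_⟩
  intro p _ K L _ _ _ _ E ι ρ r hirr hρ hr hcase
  exact sel_side h h2 hbad hunr' hirr hρ hr hcase

end Pool.Agent.Results.MP_d4aa36_nt.TwistedBaseChange
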